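import Mathlib
import Pool.Agent.Helper3_PPZ.Stmts
import Pool.Agent.Helper63_PPX.Box
import Pool.Agent.Helper39_PPX.Stb

/-! # Squad PPZ: modules UPR and TWO -/

set_option autoImplicit false

universe u

namespace Pool.Agent.PPZ.H6

open MvPolynomial PPX

section

variable {k : Type u} [Field k]

/-- finitely many linear conditions -/
theorem finrank_range_le {W V : Type u} [AddCommGroup W] [Module k W] [Module.Finite k W]
    [AddCommGroup V] [Module k V] {ι : Type u} [Fintype ι] (f : W →ₗ[k] V) (g : W →ₗ[k] (ι → k))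
    (h : LinearMap.ker g ≤ LinearMap.ker f) :
    Module.finrank k (LinearMap.range f) ≤ Fintype.card ι := by
  have h1 := LinearMap.finrank_range_add_finrank_ker f
  have h2 := LinearMap.finrank_range_add_finrank_ker g
  have h3 := Submodule.finrank_mono h
  have h4 : Module.finrank k (LinearMap.range g) ≤ Fintype.card ι := by
    have h5 := Submodule.finrank_le (LinearMap.range g)
    rwa [Module.finrank_fintype_fun_eq_card] at h5
  omega

end

/-- UPR -/
theorem upr : UprStmt.{u} := by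
  classical
  intro k _ N₁ N₂ a b Θ r M₀ v hV B hB d₁ d₂ M n hd hM W hW hdeg
  have hfb : Module.Finite k (Qd k d₁ d₂ M) := (PPX.H63.box.1 ![d₁, d₂, M, M]).2.1
  have hfW : Module.Finite k W := Module.Finite.of_injective (Submodule.inclusion hW)
    (Submodule.inclusion_injective hW)
  let f : W →ₗ[k] P4 k ⧸ v := (Ideal.Quotient.mkₐ k v).toLinearMap ∘ₗ W.subtype
  have hf : LinearMap.range f = W.map (Ideal.Quotient.mkₐ k v).toLinearMap := by
    rw [LinearMap.range_comp, Submodule.range_subtype]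
  let g : W →ₗ[k] ((Σ q : Fin N₁ × Fin N₂,
      (Fin (n + 1) ⊕ (Θ q.1 q.2 × (Fin 4 → Fin r)))) → k) :=
    LinearMap.pi fun c => Sum.elim
      (fun l : Fin (n + 1) => (Polynomial.lcoeff k (l : ℕ)) ∘ₗ
        (ln a b c.1.1 c.1.2).toLinearMap ∘ₗ W.subtype)
      (fun t : Θ c.1.1 c.1.2 × (Fin 4 → Fin r) =>
        (MvPolynomial.lcoeff k (Finsupp.equivFunOnFinite.symm fun v => (t.2 v : ℕ))) ∘ₗ
          (tay (pnt a b c.1.1 c.1.2 (t.1 : k))).toLinearMap ∘ₗ W.subtype) c.2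
  have hker : LinearMap.ker g ≤ LinearMap.ker f := by
    intro Q hQ
    rw [LinearMap.mem_ker] at hQ ⊢
    change Ideal.Quotient.mk v (Q : P4 k) = 0
    rw [Ideal.Quotient.eq_zero_iff_mem]
    apply hV.count d₁ d₂ M hd hM Q (hW Q.2)
    · intro i j
      ext l
      rw [Polynomial.coeff_zero]
      by_cases hl : l < n + 1
      · exact congrFun hQ ⟨(i, j), Sum.inl ⟨l, hl⟩⟩
      · exact Polynomial.coeff_eq_zero_of_natDegree_lt
          (lt_of_le_of_lt (hdeg Q Q.2 i j) (by omega))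
    · intro i j τ hτ s hs
      have hs' : ∀ w, s w < r := fun w => lt_of_le_of_lt (Finsupp.le_degree w s) hs
      have h1 := congrFun hQ ⟨(i, j), Sum.inr (⟨τ, hτ⟩, fun w => ⟨s w, hs' w⟩)⟩
      have h2 : (Finsupp.equivFunOnFinite.symm fun w => ((⟨s w, hs' w⟩ : Fin r) : ℕ)) = s := by
        ext w
        rfl
      change coeff (Finsupp.equivFunOnFinite.symm fun w => ((⟨s w, hs' w⟩ : Fin r) : ℕ))
        (tay (pnt a b i j τ) Q) = 0 at h1
      rwa [h2] at h1
  have h1 := finrank_range_le f g hker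
  rw [hh, ← hf]
  refine h1.trans ?_
  rw [Fintype.card_sigma]
  calc ∑ q : Fin N₁ × Fin N₂, Fintype.card (Fin (n + 1) ⊕ (Θ q.1 q.2 × (Fin 4 → Fin r)))
      ≤ ∑ _q : Fin N₁ × Fin N₂, (n + 1 + B * r ^ 4) := by
        refine Finset.sum_le_sum fun q _ => ?_
        rw [Fintype.card_sum, Fintype.card_fin, Fintype.card_prod, Fintype.card_coe,
          Fintype.card_fun, Fintype.card_fin, Fintype.card_fin]
        exact Nat.add_le_add_left (Nat.mul_le_mul_right _ (hB _ _)) _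
    _ = (n + 1 + B * r ^ 4) * (N₁ * N₂) := by
        rw [Finset.sum_const, Finset.card_univ, Fintype.card_prod, Fintype.card_fin,
          Fintype.card_fin, smul_eq_mul, mul_comm]

/-- TWO -/
theorem two (hupr : UprStmt.{u}) : TwoStmt.{u} := by
  classical
  intro k _ N₁ N₂ a b Θ r M₀ v hV B hB hN₁ hN₂ M hBM hM
  obtain ⟨hb1, hb2, hb3⟩ := PPX.H63.box.{u}
  have hbox := hb1 (k := k) (![2 * N₁, 2 * N₂, M, M] : Fin 4 → ℕ)
  have hfin : Module.Finite k (Qd k (2 * N₁) (2 * N₂) M) := hbox.2.1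
  have hdim : Module.finrank k (Qd k (2 * N₁) (2 * N₂) M) =
      (2 * N₁ + 1) * (2 * N₂ + 1) * (M + 1) * (M + 1) := by
    have := hbox.2.2
    rw [Fin.prod_univ_four] at this
    exact this
  have hup : hh v (Qd k (2 * N₁) (2 * N₂) M) ≤ (3 * M + 1) * (N₁ * N₂) := by
    refine (hupr a b Θ r M₀ v hV B hB (2 * N₁) (2 * N₂) M (2 * M) ?_ hM
      (Qd k (2 * N₁) (2 * N₂) M) le_rfl ?_).trans (Nat.mul_le_mul_right _ (by omega))
    · have : 2 * N₁ * N₂ + 2 * N₂ * N₁ = 4 * (N₁ * N₂) := by ring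
      omega
    · intro Q hQ i j
      have hQd := (hbox.1 Q).mp hQ
      exact PPX.H39.lin_deg _ _ _ _ M Q (hQd 2) (hQd 3)
  have hNN : 0 < N₁ * N₂ := Nat.mul_pos hN₁ hN₂
  have hbig : (3 * M + 1) * (N₁ * N₂) < (2 * N₁ + 1) * (2 * N₂ + 1) * (M + 1) := by
    have e1 : 4 * (N₁ * N₂) ≤ (2 * N₁ + 1) * (2 * N₂ + 1) := by nlinarith
    calc (3 * M + 1) * (N₁ * N₂) < 4 * (M + 1) * (N₁ * N₂) :=
          Nat.mul_lt_mul_of_pos_right (by omega) hNN
      _ = 4 * (N₁ * N₂) * (M + 1) := by ring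
      _ ≤ _ := Nat.mul_le_mul_right _ e1
  have hsum := PPX.H39.hh_add v (Qd k (2 * N₁) (2 * N₂) M)
  -- a nonzero element
  have hne : (Qd k (2 * N₁) (2 * N₂) M ⊓ v.restrictScalars k : Submodule k (P4 k)) ≠ ⊥ := by
    intro h0
    rw [h0, finrank_bot, hdim, add_zero] at hsum
    have e2 : (2 * N₁ + 1) * (2 * N₂ + 1) * (M + 1) * 1 ≤
        (2 * N₁ + 1) * (2 * N₂ + 1) * (M + 1) * (M + 1) := Nat.mul_le_mul_left _ (by omega)
    omega
  obtain ⟨Q₀, ⟨hQ₀, hQ₀v⟩, hQ₀0⟩ := Submodule.exists_mem_ne_zero_of_ne_bot hne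
  have hQ₀v' : Q₀ ∈ v := hQ₀v
  have hprod : (UniqueFactorizationMonoid.factors Q₀).prod ∈ v := by
    obtain ⟨w, hw⟩ := UniqueFactorizationMonoid.factors_prod hQ₀0
    have h6 : (UniqueFactorizationMonoid.factors Q₀).prod * w ∈ v := by rwa [hw]
    exact (Ideal.mul_unit_mem_iff_mem v w.isUnit).1 h6
  obtain ⟨R, hR, hRv⟩ := (hV.prime.multiset_prod_mem_iff_exists_mem _).1 hprod
  have hRi := UniqueFactorizationMonoid.irreducible_of_factor R hR
  have hdvd : R ∣ Q₀ := UniqueFactorizationMonoid.dvd_of_mem_factors hR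
  have hdR : ∀ w, degreeOf w R ≤ (![2 * N₁, 2 * N₂, M, M] : Fin 4 → ℕ) w := fun w =>
    (hb3 R Q₀ hQ₀0 hdvd w).trans ((hbox.1 Q₀).1 hQ₀ w)
  have hRQ : R ∈ Qd k (2 * N₁) (2 * N₂) M := (hbox.1 R).2 hdR
  by_contra hcon
  push Not at hcon
  have hall : ∀ Q ∈ v, Q ∈ Qd k (2 * N₁) (2 * N₂) M → R ∣ Q := by
    intro Q hQ hQ2
    by_contra h
    exact hcon R hRv Q hQ hRi h hRQ hQ2
  -- some degree in `θ, Λ`
  have hr23 : 1 ≤ degreeOf 2 R + degreeOf 3 R := by
    by_contra h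
    have e2 : degreeOf 2 R = 0 := by omega
    have e3 : degreeOf 3 R = 0 := by omega
    have hvars : (R.vars : Set (Fin 4)) ⊆ Set.range (![0, 1] : Fin 2 → Fin 4) := by
      intro i hi
      have hi' : degreeOf i R ≠ 0 := by
        intro h0
        rw [Finset.mem_coe, mem_vars_iff_mem_support] at hi
        obtain ⟨m, hm, hmi⟩ := hi
        have := monomial_le_degreeOf i hm
        rw [h0] at this
        exact (Finsupp.mem_support_iff.mp hmi) (by omega)
      fin_cases i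
      · exact ⟨0, rfl⟩
      · exact ⟨1, rfl⟩
      · exact absurd e2 hi'
      · exact absurd e3 hi'
    obtain ⟨F, hF⟩ := exists_rename_eq_of_vars_subset_range R (![0, 1] : Fin 2 → Fin 4)
      (by decide) hvars
    have hF' : inc F = R := hF
    have := hV.plane F (by rw [hF']; exact hRv)
    rw [this, map_zero] at hF'
    exact hRi.ne_zero hF'.symm
  have r2 : degreeOf 2 R ≤ M := hdR 2
  have r3 : degreeOf 3 R ≤ M := hdR 3
  have hker : Module.finrank k
      (Qd k (2 * N₁) (2 * N₂) M ⊓ v.restrictScalars k : Submodule k (P4 k)) ≤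
      (2 * N₁ + 1 - degreeOf 0 R) * (2 * N₂ + 1 - degreeOf 1 R) * (M + 1 - degreeOf 2 R) *
        (M + 1 - degreeOf 3 R) := by
    have h5 := hb2 (k := k) (![2 * N₁, 2 * N₂, M, M] : Fin 4 → ℕ) R hRi.ne_zero hdR
      (Qd k (2 * N₁) (2 * N₂) M ⊓ v.restrictScalars k) inf_le_left
      (fun Q hQ => hall Q hQ.2 hQ.1)
    rw [Fin.prod_univ_four] at h5
    exact h5
  have e1 : (M + 1 - degreeOf 2 R) * (M + 1 - degreeOf 3 R) ≤ M * (M + 1) := by
    rcases Nat.eq_zero_or_pos (degreeOf 2 R) with h0 | h0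
    · have : 1 ≤ degreeOf 3 R := by omega
      calc (M + 1 - degreeOf 2 R) * (M + 1 - degreeOf 3 R) ≤ (M + 1) * M :=
            Nat.mul_le_mul (Nat.sub_le _ _) (by omega)
        _ = M * (M + 1) := mul_comm _ _
    · exact Nat.mul_le_mul (by omega) (Nat.sub_le _ _)
  have e2 : (2 * N₁ + 1 - degreeOf 0 R) * (2 * N₂ + 1 - degreeOf 1 R) * (M + 1 - degreeOf 2 R) *
      (M + 1 - degreeOf 3 R) ≤ (2 * N₁ + 1) * (2 * N₂ + 1) * (M * (M + 1)) := by
    rw [mul_assoc]
    exact Nat.mul_le_mul (Nat.mul_le_mul (Nat.sub_le _ _) (Nat.sub_le _ _)) e1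
  have e3 : (2 * N₁ + 1) * (2 * N₂ + 1) * (M + 1) * (M + 1) =
      (2 * N₁ + 1) * (2 * N₂ + 1) * (M + 1) + (2 * N₁ + 1) * (2 * N₂ + 1) * (M * (M + 1)) := by
    ring
  rw [hdim] at hsum
  omega

end Pool.Agent.PPZ.H6
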